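import Pool.Agent.Y403.DB.Main

/-!
# Induced subgraphs of binary De Bruijn graphs: every infinite set of lengths

The starting result says that it is NP-hard to decide whether a digraph is an induced subgraph of
the binary De Bruijn graph `B(2, k)` for some `k`. Here one reduction has the following property: a
yes-instance `G` is an induced subgraph of `B(2, k)` for all `k ≥ 4 |V(G)|`, and a no-instance for no
`k` at all. The digraphs have levels such that each arc goes to the next level; so they have no
directed cycles. Hence for every infinite set `K` of lengths, and for every length `p(|V(G)|)` given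
by a function with `p(n) ≥ 4 n`, membership is NP-hard, and so it is when `k ≤ 4 |V(G)|` is a part
of the input.
-/

set_option autoImplicit false

namespace Pool.Agent.Results.MP_868529_lc.EverySetOfLengths

open Pool.Agent.NPC Pool.Agent.H741R2 Pool.Agent.H692R2 Pool.Agent.Y403.DB

theorem hard_of {Q : List ℕ × List (ℕ × ℕ) → Prop}
    (h1 : ∀ I, IsDigraph I → Levelled I → 1 ≤ I.1.length →
      (∀ k, 4 * I.1.length ≤ k → InClass 2 k (arcRel I)) → Q I)
    (h2 : ∀ I, Q I → ∃ k, 1 ≤ k ∧ InClass 2 k (arcRel I)) : NPHardP Q := by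
  refine ((hardPr_col 4 (by norm_num)).trans red_poly (Pr' := fun _ => True)
    (fun _ _ => trivial) (fun E hE => ?_)).toHardI.toNPHardP
  constructor
  · intro h
    exact h1 _ (ldig_isDigraph _) (red_levelled E) (pos_red E) (red_long hE h)
  · intro h
    exact (red_correct hE).2 (h2 _ h)

/-- **Membership in the classes of induced subgraphs of binary De Bruijn graphs is NP-hard for every
infinite set of lengths.** -/
theorem result :
    (∀ L : Set (List Bool), InNP L → ∃ f : List Bool → List ℕ × List (ℕ × ℕ),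
      PolyTime (fun w => bits (f w)) ∧ ∀ w, IsDigraph (f w) ∧ Levelled (f w) ∧
        (w ∈ L → ∀ k, 4 * (f w).1.length ≤ k → InClass 2 k (arcRel (f w))) ∧
        (w ∉ L → ∀ k, 1 ≤ k → ¬ InClass 2 k (arcRel (f w)))) ∧
    NPHardP (Linf 2) ∧
    (∀ K : Set ℕ, K.Infinite →
      NPHardP (fun I => IsDigraph I ∧ Levelled I ∧ ∃ k ∈ K, 1 ≤ k ∧ InClass 2 k (arcRel I))) ∧
    (∀ p : ℕ → ℕ, (∀ n, 4 * n ≤ p n) →
      NPHardP (fun I => IsDigraph I ∧ Levelled I ∧ InClass 2 (p I.1.length) (arcRel I))) ∧
    NPHardP (fun x : (List ℕ × List (ℕ × ℕ)) × ℕ => IsDigraph x.1 ∧ Levelled x.1 ∧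
      1 ≤ x.2 ∧ x.2 ≤ 4 * x.1.1.length ∧ InClass 2 x.2 (arcRel x.1)) := by
  refine ⟨fun L hL => ?_, hard_of (fun I hI _ hpos h => ⟨hI, 4 * I.1.length, by omega,
    h _ le_rfl⟩) (fun I h => h.2), fun K hK => hard_of ?_ ?_, fun p hp => ?_, ?_⟩
  · obtain ⟨g, hg, hp, hgL⟩ := hardPr_col 4 (by norm_num) L hL
    refine ⟨fun w => red (g w), PC.toPolyTime_bits red_poly g hg, fun w =>
      ⟨ldig_isDigraph _, red_levelled _, fun hw => red_long (hp w) ((hgL w).1 hw),
        fun hw => red_none (hp w) (fun h => hw ((hgL w).2 h))⟩⟩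
  · intro I hI hl hpos h
    obtain ⟨k, hk, hlt⟩ := hK.exists_gt (4 * I.1.length)
    exact ⟨hI, hl, k, hk, by omega, h k hlt.le⟩
  · rintro I ⟨_, _, k, _, hk, h⟩
    exact ⟨k, hk, h⟩
  · refine ((hardPr_col 4 (by norm_num)).trans red_poly (Pr' := fun _ => True)
      (fun _ _ => trivial) (fun E hE => ?_)).toHardI.toNPHardP
    constructor
    · intro h
      exact ⟨ldig_isDigraph _, red_levelled E, red_long hE h _ (hp _)⟩
    · rintro ⟨_, _, h⟩
      have h1 := hp (red E).1.length
      have h2 := pos_red E
      exact (red_correct hE).2 ⟨_, by omega, h⟩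
  · refine ((hardPr_col 4 (by norm_num)).trans
      (f := fun E => (red E, 4 * (red E).1.length)) ?_ (Pr' := fun _ => True)
      (fun _ _ => trivial) (fun E hE => ?_)).toHardI.toNPHardP
    · have h1 : NPC.Poly (fun E => (red E).1.length) :=
        (UPoly.length (NPC.Poly.fst red_poly)).toPoly
      exact NPC.Poly.pair red_poly (NPC.Poly.mul (NPC.Poly.const 4) h1)
    · constructor
      · intro h
        have h2 := pos_red E
        exact ⟨ldig_isDigraph _, red_levelled E, by simp only; omega, le_rfl,
          red_long hE h _ le_rfl⟩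
      · rintro ⟨_, _, h1, _, h⟩
        exact (red_correct hE).2 ⟨_, h1, h⟩

end Pool.Agent.Results.MP_868529_lc.EverySetOfLengths
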